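import Pool.Agent.W624.NDst3

/-!
# Uniform doomsday in the case `r = 2`

`Ext s` is the Adams `s`-line, the cohomology of the cobar complex of the mod 2 dual Steenrod
algebra.  `Sq0` is the squaring operation, `h0` the multiplication by `h₀`, and `Sq1 s x` is the
cup-`(s-1)` square of the cocycle `x`, which represents `Sq¹` of its class.

There is a bound `J`, depending only on the line, such that for every differential `d₂` with
Bruner's formula `d₂ (Sq⁰ x) = h₀ Sq¹ x` for classes `x` of even internal degree, and for every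
`Sq⁰`-family `a_j = (Sq⁰)^j a` on the `s`-line, with `b_j = (Sq⁰)^j (Sq¹ a)` the `Sq⁰`-family of
`Sq¹ a`, which consists of the classes `Sq¹ a_j`:

* `d₂ a_{j+1} = h₀ b_j` for all `j ≥ 1`;
* if a single member `a_i` with `i ≥ J` supports a nonzero `d₂`, then
  `d₂ a_j = h₀ b_{j-1} ≠ 0` for all `j ≥ J`, and `b` is a non-trivial `Sq⁰`-family;
* this happens exactly when `Sq¹ a` is not killed by a power of `Sq⁰`, and otherwise
  `d₂ a_j = 0` for all `j ≥ J`.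
-/

set_option autoImplicit false

namespace Pool.Agent.Results.MP_3c8579_gt.UniformDTwo

open Pool.Agent.W624.NS

/-- The `Sq⁰`-family of a class: `fam y j = (Sq⁰)^j y`. -/
noncomputable def fam {s : ℕ} (y : Ext s) (j : ℕ) : Ext s := (Sq0 s)^[j] y

/-- Bruner's formula `d₂ (Sq⁰ x) = h₀ Sq¹ x` for cocycles `x` of even internal degree. -/
def BrunerFormula (d₂ : (n : ℕ) → Ext n → Ext (n + 2)) : Prop :=
  ∀ (n t : ℕ) (x : Z n), Even t → IsHom n t x.1 →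
    d₂ n (Sq0 n (cl x)) = h0 (n + 1) (cl (Sq1 n x))

theorem result (s : ℕ) : ∃ J : ℕ,
    ∀ d₂ : (n : ℕ) → Ext n → Ext (n + 2), BrunerFormula d₂ →
      ∀ (t : ℕ) (a : Z s), IsHom s t a.1 →
        (∀ j, ∃ x : Z s, cl x = fam (cl a) j ∧ cl (Sq1 s x) = fam (cl (Sq1 s a)) j) ∧
        (∀ j, 1 ≤ j → d₂ s (fam (cl a) (j + 1)) = h0 (s + 1) (fam (cl (Sq1 s a)) j)) ∧
        ((∃ i, J ≤ i ∧ d₂ s (fam (cl a) i) ≠ 0) →
          ∀ j, J ≤ j → 1 ≤ j ∧
            d₂ s (fam (cl a) j) = h0 (s + 1) (fam (cl (Sq1 s a)) (j - 1)) ∧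
            h0 (s + 1) (fam (cl (Sq1 s a)) (j - 1)) ≠ 0) ∧
        ((∃ i, J ≤ i ∧ d₂ s (fam (cl a) i) ≠ 0) ↔ ∀ j, fam (cl (Sq1 s a)) j ≠ 0) := by
  obtain ⟨J0, hJ0⟩ := h0_iter s
  obtain ⟨r, hr⟩ := nil_iter s
  have up : ∀ (y : Ext (s + 1)) (a b : ℕ), a ≤ b → (Sq0 (s + 1))^[a] y = 0 →
      (Sq0 (s + 1))^[b] y = 0 := by
    intro y a b hab h
    obtain ⟨c, rfl⟩ := Nat.exists_eq_add_of_le hab
    rw [add_comm a c, Function.iterate_add_apply, h]
    exact Sq0_iter_zero _ _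
  refine ⟨J0 + r + 2, fun d₂ hd t x hx => ?_⟩
  have hf : ∀ k, d₂ s ((Sq0 s)^[k + 2] (cl x))
      = h0 (s + 1) ((Sq0 (s + 1))^[k + 1] (cl (Sq1 s x))) := by
    intro k
    have hev : Even (2 ^ (k + 1) * t) := by
      rw [pow_succ, mul_comm (2 ^ k) 2, mul_assoc]
      exact even_two_mul _
    have hw := isHom_iter x hx (k + 1)
    rw [show k + 2 = (k + 1) + 1 from rfl, Function.iterate_succ_apply', Sq0_iter,
      hd s _ _ hev hw, Sq1_iter, Sq0_iter]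
  -- non-vanishing of one member with large index gives non-vanishing everywhere
  have key : (∃ i, J0 + r + 2 ≤ i ∧ d₂ s (fam (cl x) i) ≠ 0) →
      ∀ n, fam (cl (Sq1 s x)) n ≠ 0 := by
    rintro ⟨i, hi, hne⟩ n h0n
    obtain ⟨k, rfl⟩ : ∃ k, i = k + 2 := ⟨i - 2, by omega⟩
    refine hne ?_
    change d₂ s ((Sq0 s)^[k + 2] (cl x)) = 0
    rw [hf k, up _ r (k + 1) (by omega) (hr _ _ h0n), h0_zero]
  have key2 : (∀ n, fam (cl (Sq1 s x)) n ≠ 0) → ∀ k, J0 ≤ k →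
      h0 (s + 1) (fam (cl (Sq1 s x)) (k + 1)) ≠ 0 := by
    intro h k hk h1
    exact h k (hJ0 _ k hk h1)
  refine ⟨fun j => ⟨(sqZ s)^[j] x, ?_, ?_⟩, fun j hj => ?_, fun h j hj => ?_, key, fun h => ?_⟩
  · exact (Sq0_iter x j).symm
  · rw [Sq1_iter]
    exact (Sq0_iter (Sq1 s x) j).symm
  · obtain ⟨k, rfl⟩ : ∃ k, j = k + 1 := ⟨j - 1, by omega⟩
    exact hf k
  · obtain ⟨k, rfl⟩ : ∃ k, j = k + 2 := ⟨j - 2, by omega⟩
    refine ⟨by omega, hf k, ?_⟩
    exact key2 (key h) k (by omega)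
  · refine ⟨J0 + r + 2, le_rfl, ?_⟩
    change d₂ s ((Sq0 s)^[J0 + r + 2] (cl x)) ≠ 0
    rw [hf (J0 + r)]
    exact key2 h (J0 + r) (by omega)

end Pool.Agent.Results.MP_3c8579_gt.UniformDTwo
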